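import Mathlib
import Pool.Agent.Helper30.NIFinal
import Pool.Agent.Helper30.BK.XXRNP
import Pool.Agent.Helper30.BK.Index

set_option autoImplicit false

open MeasureTheory

namespace Pool.Agent.Results.MP_9d0e4c_an.RealCounterexample

universe u

/-- The countably additive `X`-valued measure `m` is of bounded variation: the sums
`∑ ‖m (A i)‖` over finite families of pairwise disjoint measurable sets are bounded. -/
def BoundedVariation {Ω : Type u} [MeasurableSpace Ω] {X : Type} [NormedAddCommGroup X]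
    (m : VectorMeasure Ω X) : Prop :=
  ∃ C : ℝ, ∀ (n : ℕ) (A : Fin n → Set Ω), (∀ i, MeasurableSet (A i)) →
    (∀ i j, i ≠ j → Disjoint (A i) (A j)) → ∑ i, ‖m (A i)‖ ≤ C

/-- The Radon-Nikodym property, as the problem defines it: for every finite measure space
`(Ω, μ)`, every countably additive `X`-valued measure `m` of bounded variation that is absolutely
continuous with respect to `μ` has a Bochner integrable density with respect to `μ`. -/
def RadonNikodym (X : Type) [NormedAddCommGroup X] [NormedSpace ℝ X] : Prop :=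
  ∀ (Ω : Type u) [MeasurableSpace Ω] (μ : Measure Ω) [IsFiniteMeasure μ]
    (m : VectorMeasure Ω X), BoundedVariation m →
    (∀ A : Set Ω, MeasurableSet A → μ A = 0 → m A = 0) →
    ∃ f : Ω → X, Integrable f μ ∧ ∀ A : Set Ω, MeasurableSet A → m A = ∫ x in A, f x ∂μ

/-- The real number `v` is the numerical radius of `T`: the supremum of `|φ (T x)|` over all
`x` in the unit sphere of `X` and `φ` in the unit sphere of the dual with `φ x = 1`. -/
def IsNumericalRadius {X : Type} [NormedAddCommGroup X] [NormedSpace ℝ X] (T : X →L[ℝ] X)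
    (v : ℝ) : Prop :=
  IsLUB {r : ℝ | ∃ (x : X) (φ : X →L[ℝ] ℝ), ‖x‖ = 1 ∧ ‖φ‖ = 1 ∧ φ x = 1 ∧ r = |φ (T x)|} v

/-- The real number `n` is the numerical index of `X`: the infimum of the numerical radii of the
bounded linear operators on `X` of norm one. -/
def IsNumericalIndex (X : Type) [NormedAddCommGroup X] [NormedSpace ℝ X] (n : ℝ) : Prop :=
  IsGLB {v : ℝ | ∃ T : X →L[ℝ] X, ‖T‖ = 1 ∧ IsNumericalRadius T v} n

/-- There is a real Banach space `X` with the Radon-Nikodym property whose dual has a strictly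
smaller numerical index: `n(X*) ≤ 1/20 < 1/14 ≤ n(X)`. -/
theorem result : ∃ (X : Type) (_ : NormedAddCommGroup X) (_ : NormedSpace ℝ X)
    (_ : CompleteSpace X), RadonNikodym.{u} X ∧
    ∃ a b : ℝ, IsNumericalIndex X a ∧ IsNumericalIndex (X →L[ℝ] ℝ) b ∧
      b < a ∧ b ≤ 1 / 20 ∧ 1 / 14 ≤ a := by
  refine ⟨Pool.Agent.Helper30.XX, inferInstance, inferInstance, inferInstance, ?_, ?_⟩
  · intro Ω _ μ _ m hm hac
    obtain ⟨V, hV⟩ := hm
    exact Pool.Agent.Helper30.BK.XX_rnp_measure μ m V
      (fun n A hA hd => hV n A hA (fun i j hij => hd hij)) hac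
  · have h1 := Pool.Agent.Helper30.nidx_XX
    have h2 := Pool.Agent.Helper30.nidx_XD
    refine ⟨Pool.Agent.Helper30.nidx Pool.Agent.Helper30.XX,
      Pool.Agent.Helper30.nidx Pool.Agent.Helper30.XD,
      Pool.Agent.Helper30.BK.isGLB_nidx Pool.Agent.Helper30.XX,
      Pool.Agent.Helper30.BK.isGLB_nidx Pool.Agent.Helper30.XD, ?_, h2, h1⟩
    refine lt_of_le_of_lt h2 (lt_of_lt_of_le ?_ h1)
    norm_num

end Pool.Agent.Results.MP_9d0e4c_an.RealCounterexample
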